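import Pool.Agent.Q284.JM.Nt

/-! The joint laws. -/

set_option autoImplicit false
set_option linter.unusedSectionVars false

namespace Pool.Agent.Q284.JM

open Filter Topology Complex NumberField IsDedekindDomain Pool.Agent.W540.BE Pool.Agent.TH553.RS
  Pool.Agent.TH553.ST Pool.Agent.H341R2 Pool.Agent.Q284.IM

theorem u_two (t : ℝ) : u 2 t = 4 * Real.cos t ^ 2 - 1 := by
  have := u_step 0 t
  rw [zero_add, u_zero] at this
  rw [this]
  have h2 : Real.cos (((0 : ℕ) + 2 : ℝ) * t) = 2 * Real.cos t ^ 2 - 1 := by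
    rw [← Real.cos_two_mul]
    congr 1
    push_cast
    ring
  rw [h2]
  ring

section

variable {K : Type} [Field K] [NumberField K]

/-- averages along ultrafilters -/
theorem exists_lf {V : Ultrafilter ℕ} (hV : (V : Filter ℕ) ≤ atTop) :
    ∃ L : (HeightOneSpectrum (𝓞 K) → ℝ) → ℝ, Lf L ∧ ∀ g, Bd g → Tendsto (mn g) V (𝓝 (L g)) := by
  have hmn : ∀ (g : HeightOneSpectrum (𝓞 K) → ℝ) (B : ℝ), (∀ v, |g v| ≤ B) → ∀ n, |mn g n| ≤ B := by
    intro g B hB n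
    have hB0 : 0 ≤ B := by
      obtain ⟨M, hM⟩ := Ideal.exists_maximal (𝓞 K)
      have hv := hB ⟨M, hM.isPrime, Ring.ne_bot_of_isMaximal_of_not_isField hM
        (RingOfIntegers.not_isField K)⟩
      exact (abs_nonneg _).trans hv
    unfold mn
    rw [smul_eq_mul, abs_mul, abs_inv, Nat.abs_cast]
    rcases Nat.eq_zero_or_pos (upto K n).card with h | h
    · rw [h]
      simpa using hB0
    · have h' : (0 : ℝ) < (upto K n).card := by exact_mod_cast h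
      rw [inv_mul_le_iff₀ h']
      refine (Finset.abs_sum_le_sum_abs _ _).trans ?_
      refine (Finset.sum_le_sum fun v _ => hB _).trans (le_of_eq ?_)
      rw [Finset.sum_const, nsmul_eq_mul]
  have h1 : ∀ g : HeightOneSpectrum (𝓞 K) → ℝ, ∃ x, Bd g → Tendsto (mn g) V (𝓝 x) := by
    intro g
    by_cases hg : Bd g
    · obtain ⟨B, hB⟩ := hg
      have h2 : ((V.map (mn g) : Ultrafilter ℝ) : Filter ℝ) ≤ 𝓟 (Set.Icc (-B) B) := by
        rw [Ultrafilter.coe_map, Filter.le_principal_iff, Filter.mem_map]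
        exact Filter.univ_mem' fun i => abs_le.1 (hmn g B hB i)
      obtain ⟨x, -, hx⟩ := isCompact_Icc.ultrafilter_le_nhds _ h2
      exact ⟨x, fun _ => by rw [Ultrafilter.coe_map] at hx; exact hx⟩
    · exact ⟨0, fun h => absurd h hg⟩
  choose L hL using h1
  refine ⟨L, ⟨fun g h hg hh => ?_, fun c g hg => ?_, fun g B hg hB => ?_, ?_⟩, fun g hg => hL g hg⟩
  · refine tendsto_nhds_unique (hL _ (hg.add hh)) (((hL g hg).add (hL h hh)).congr fun i => ?_)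
    unfold mn
    rw [Finset.sum_add_distrib, smul_add]
  · refine tendsto_nhds_unique (hL _ (hg.const_mul c)) (((hL g hg).const_mul c).congr fun i => ?_)
    unfold mn
    rw [← Finset.mul_sum, smul_eq_mul, smul_eq_mul]
    ring
  · exact le_of_tendsto (hL g hg).abs (Eventually.of_forall fun i => hmn g B hB i)
  · refine tendsto_nhds_unique (hL _ (Bd.const 1)) (tendsto_const_nhds.congr' ?_)
    filter_upwards [hV (card_ev (K := K))] with n hn
    unfold mn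
    rw [Finset.sum_const, nsmul_eq_mul, mul_one, smul_eq_mul, inv_mul_cancel₀ hn]

variable {ι : Type} [Fintype ι] [DecidableEq ι] (θ : ι → HeightOneSpectrum (𝓞 K) → ℝ)

/-- the joint law in the sense of Dirichlet -/
theorem joint_dir (h : ∀ U : Ultrafilter ℝ, (U : Filter ℝ) ≤ 𝓝[>] 0 →
      ∀ a : ι → ℕ, a ≠ 0 → M (nm K) U (X θ a) = 0) {g : ι → ℝ → ℝ} (hg : ∀ i, Fc (g i)) :
    Tendsto (dm fun v => ∏ i, g i (θ i v)) (𝓝[>] 0) (𝓝 (∏ i, st (g i))) := by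
  refine dm_tendsto (bd_prod θ fun i _ => (hg i).bc) fun U hU => ?_
  exact joint_of θ (lf_M (sysF K) hU) (T := Finset.univ) (fun b hb _ => h U hU b hb)
    fun i _ => hg i

/-- the joint law for the natural density -/
theorem joint_nat (h : ∀ a : ι → ℕ, a ≠ 0 → Tendsto (mn (X θ a)) atTop (𝓝 0)) {g : ι → ℝ → ℝ}
    (hg : ∀ i, Fc (g i)) :
    Tendsto (mn fun v => ∏ i, g i (θ i v)) atTop (𝓝 (∏ i, st (g i))) := by
  rw [Filter.tendsto_iff_ultrafilter]
  intro V hV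
  obtain ⟨L, hL, hLV⟩ := exists_lf (K := K) hV
  have h1 := joint_of θ hL (T := Finset.univ) (fun b hb _ =>
    tendsto_nhds_unique (hLV _ (bd_X θ b)) ((h b hb).mono_left hV)) (g := g) fun i _ => hg i
  rw [← h1]
  exact hLV _ (bd_prod θ fun i _ => (hg i).bc)

/-- the indicator function -/
noncomputable def rl (φ ψ : HeightOneSpectrum (𝓞 K) → ℝ) (δ : ℝ) (v : HeightOneSpectrum (𝓞 K)) :
    ℝ := open Classical in if δ ≤ |Real.cos (φ v) ^ 2 - Real.cos (ψ v) ^ 2| then 1 else 0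

theorem bd_rl (φ ψ : HeightOneSpectrum (𝓞 K) → ℝ) (δ : ℝ) : Bd (rl φ ψ δ) := ⟨1, fun v => by
  unfold rl
  split_ifs <;> simp⟩

variable {φ ψ : HeightOneSpectrum (𝓞 K) → ℝ} {U : Ultrafilter ℝ}
  (hU : (U : Filter ℝ) ≤ 𝓝[>] 0)

theorem bdu (φ : HeightOneSpectrum (𝓞 K) → ℝ) (n : ℕ) : Bd fun v => u n (φ v) := by
  obtain ⟨-, B, hB⟩ := bc_u n
  exact ⟨B, fun v => hB _⟩

include hU

theorem rel_of_zero (h : (M (nm K) U fun v => (u 2 (φ v) - u 2 (ψ v)) ^ 2) = 0) {δ : ℝ}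
    (hδ : 0 < δ) : M (nm K) U (rl φ ψ δ) = 0 := by
  have hb := ((bdu φ 2).sub (bdu ψ 2)).sq
  refine le_antisymm ?_ (M_nonneg (sysF K) hU (bd_rl φ ψ δ) fun v => by
    unfold rl
    split_ifs <;> simp)
  have h1 : (M (nm K) U fun v => 1 / (16 * δ ^ 2) * (u 2 (φ v) - u 2 (ψ v)) ^ 2) = 0 := by
    rw [M_const_mul (sysF K) hU hb, h, mul_zero]
  rw [← h1]
  refine M_mono (sysF K) hU (bd_rl φ ψ δ) (hb.const_mul _) fun v => ?_
  unfold rl
  split_ifs with h2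
  · rw [u_two, u_two, one_div_mul_eq_div, le_div_iff₀ (by positivity), one_mul]
    have h3 := pow_le_pow_left₀ hδ.le h2 2
    rw [sq_abs] at h3
    nlinarith
  · positivity

theorem zero_of_rel (h : ∀ δ : ℝ, 0 < δ → M (nm K) U (rl φ ψ δ) = 0) :
    (M (nm K) U fun v => (u 2 (φ v) - u 2 (ψ v)) ^ 2) = 0 := by
  have hb := ((bdu φ 2).sub (bdu ψ 2)).sq
  refine le_antisymm ?_ (M_nonneg (sysF K) hU hb fun v => sq_nonneg _)
  refine le_of_forall_pos_le_add fun ε hε => ?_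
  have hs : 0 < Real.sqrt (ε / 16) := Real.sqrt_pos.2 (by positivity)
  have h1 : (M (nm K) U fun v => ε + 16 * rl φ ψ (Real.sqrt (ε / 16)) v) = ε := by
    rw [M_add (sysF K) hU (Bd.const ε) ((bd_rl φ ψ _).const_mul 16), M_const (sysF K) hU,
      M_const_mul (sysF K) hU (bd_rl φ ψ _), h _ hs, mul_zero, add_zero]
  rw [zero_add]
  refine le_trans ?_ h1.le
  refine M_mono (sysF K) hU hb ((Bd.const ε).add ((bd_rl φ ψ _).const_mul 16)) fun v => ?_
  have hc1 := Real.cos_sq_le_one (φ v)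
  have hc2 := Real.cos_sq_le_one (ψ v)
  have hc3 := sq_nonneg (Real.cos (φ v))
  have hc4 := sq_nonneg (Real.cos (ψ v))
  have e : (u 2 (φ v) - u 2 (ψ v)) ^ 2 = 16 * (|Real.cos (φ v) ^ 2 - Real.cos (ψ v) ^ 2|) ^ 2 := by
    rw [u_two, u_two, sq_abs]
    ring
  rw [e]
  have h4 : |Real.cos (φ v) ^ 2 - Real.cos (ψ v) ^ 2| ≤ 1 := by
    rw [abs_le]
    constructor <;> linarith
  have h5 := abs_nonneg (Real.cos (φ v) ^ 2 - Real.cos (ψ v) ^ 2)
  unfold rl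
  split_ifs with h2
  · nlinarith
  · push Not at h2
    have h3 := pow_le_pow_left₀ h5 h2.le 2
    rw [Real.sq_sqrt (by positivity)] at h3
    linarith

omit hU in
/-- the order for a pair -/
theorem pair_iff (hst : ∀ U : Ultrafilter ℝ, (U : Filter ℝ) ≤ 𝓝[>] 0 → ∀ i g, Fc g →
      (M (nm K) U fun v => g (θ i v)) = st g) {m : (ι → ℕ) → ℤ}
    (hm : ∀ U : Ultrafilter ℝ, (U : Filter ℝ) ≤ 𝓝[>] 0 → ∀ a, 2 ≤ (sp a).card →
      M (nm K) U (X θ a) = m a) {i j : ι} (hij : i ≠ j) :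
    (m (px i j 2 2) = 0 ∨ m (px i j 2 2) = 1) ∧ (m (px i j 2 2) = 1 ↔
      ∀ δ : ℝ, 0 < δ → Tendsto (dm (rl (θ i) (θ j) δ)) (𝓝[>] 0) (𝓝 0)) := by
  have hcard : 2 ≤ (sp (px i j 2 2)).card := by
    rw [sp_px hij two_ne_zero two_ne_zero, Finset.card_pair hij]
  have hX : X θ (px i j 2 2) = fun v => u 2 (θ i v) * u 2 (θ j v) := funext (X_px hij 2 2)
  have key : ∀ U : Ultrafilter ℝ, (U : Filter ℝ) ≤ 𝓝[>] 0 → (m (px i j 2 2) = 0 ∨
      (m (px i j 2 2) = 1 ∧ (M (nm K) U fun v => (u 2 (θ i v) - u 2 (θ j v)) ^ 2) = 0)) := by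
    intro U hU
    have h1 := hm U hU _ hcard
    rw [hX] at h1
    exact two_two (sysF K) hU (hst U hU) (fun a ha => ⟨m a, hm U hU a ha⟩) hij h1
  set U₀ : Ultrafilter ℝ := Ultrafilter.of (𝓝[>] 0) with hU₀
  have h₀ : (U₀ : Filter ℝ) ≤ 𝓝[>] 0 := Ultrafilter.of_le _
  refine ⟨?_, fun h1 δ hδ => ?_, fun h1 => ?_⟩
  · rcases key U₀ h₀ with h | h
    · exact Or.inl h
    · exact Or.inr h.1
  · refine dm_tendsto (bd_rl _ _ _) fun U hU => ?_
    rcases key U hU with h | h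
    · omega
    · exact rel_of_zero hU h.2 hδ
  · have h2 := zero_of_rel h₀ fun δ hδ => M_of_dm (h1 δ hδ) h₀
    have hY := bdu (θ i) 2
    have hZ := bdu (θ j) 2
    have h3 : (M (nm K) U₀ fun v => (u 2 (θ i v) - u 2 (θ j v)) * u 2 (θ i v)) = 0 :=
      M_mul_zero (sysF K) h₀ (hY.sub hZ) hY h2
    have e : (fun v => (u 2 (θ i v) - u 2 (θ j v)) * u 2 (θ i v)) = fun v =>
        u 2 (θ i v) ^ 2 - u 2 (θ i v) * u 2 (θ j v) := by
      funext v
      ring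
    have h4 : (M (nm K) U₀ fun v => u 2 (θ i v) ^ 2) = 1 := by
      have := hst U₀ h₀ i (fun t => u 2 t ^ 2) ((fc_u 2).pow 2)
      rw [st_sq] at this
      exact this
    have h5 := hm U₀ h₀ _ hcard
    rw [hX] at h5
    rw [e, M_sub (sysF K) h₀ hY.sq (hY.mul hZ), h4, h5] at h3
    have h6 : (m (px i j 2 2) : ℝ) = 1 := by linarith
    exact_mod_cast h6

omit hU in
/-- **The joint law and the pairs.** -/
theorem all_of_pairs (hst : ∀ U : Ultrafilter ℝ, (U : Filter ℝ) ≤ 𝓝[>] 0 → ∀ i g, Fc g →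
      (M (nm K) U fun v => g (θ i v)) = st g) {m : (ι → ℕ) → ℤ}
    (hm : ∀ U : Ultrafilter ℝ, (U : Filter ℝ) ≤ 𝓝[>] 0 → ∀ a, 2 ≤ (sp a).card →
      M (nm K) U (X θ a) = m a) (h0 : ∀ i j, i ≠ j → m (px i j 2 2) = 0) :
    ∀ U : Ultrafilter ℝ, (U : Filter ℝ) ≤ 𝓝[>] 0 → ∀ a : ι → ℕ, a ≠ 0 →
      M (nm K) U (X θ a) = 0 := by
  intro U hU
  refine all_zero (sysF K) hU (hst U hU) (fun a ha => ⟨m a, hm U hU a ha⟩) fun i j hij => ?_
  have hcard : 2 ≤ (sp (px i j 2 2)).card := by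
    rw [sp_px hij two_ne_zero two_ne_zero, Finset.card_pair hij]
  have hX : X θ (px i j 2 2) = fun v => u 2 (θ i v) * u 2 (θ j v) := funext (X_px hij 2 2)
  have h1 := hm U hU _ hcard
  rw [hX, h0 i j hij, Int.cast_zero] at h1
  exact h1

end

end Pool.Agent.Q284.JM
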