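import Pool.Agent.Q284.IM.Two

/-! Bounded linear functionals on the functions of the cosine. -/

set_option autoImplicit false

namespace Pool.Agent.Q284.JM

open Finset Pool.Agent.Q284.IM

/-- bounded linear functionals -/
structure Bl (J : (ℝ → ℝ) → ℝ) : Prop where
  add : ∀ g h, Bc g → Bc h → J (fun t => g t + h t) = J g + J h
  smul : ∀ (c : ℝ) g, Bc g → J (fun t => c * g t) = c * J g
  le : ∃ C, 0 ≤ C ∧ ∀ g B, Bc g → (∀ t, |g t| ≤ B) → |J g| ≤ C * B

variable {J J' : (ℝ → ℝ) → ℝ}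

theorem Bl.of_mean (h : Mean J) : Bl J :=
  ⟨h.add, h.smul, 1, zero_le_one, fun g B hg hB => by rw [one_mul]; exact h.le g B hg hB⟩

theorem Bl.const_mul (h : Bl J) (c : ℝ) : Bl fun g => J g * c := by
  obtain ⟨C, hC0, hC⟩ := h.le
  refine ⟨fun g k hg hk => ?_, fun a g hg => ?_, C * |c|, by positivity, fun g B hg hB => ?_⟩
  · simp only [h.add g k hg hk]
    ring
  · simp only [h.smul a g hg]
    ring
  · rw [abs_mul]
    calc |J g| * |c| ≤ (C * B) * |c| := mul_le_mul_of_nonneg_right (hC g B hg hB) (abs_nonneg _)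
      _ = _ := by ring

theorem Bl.sub (h : Bl J) (h' : Bl J') : Bl fun g => J g - J' g := by
  obtain ⟨C, hC0, hC⟩ := h.le
  obtain ⟨C', hC0', hC'⟩ := h'.le
  refine ⟨fun g k hg hk => ?_, fun a g hg => ?_, C + C', by positivity, fun g B hg hB => ?_⟩
  · simp only [h.add g k hg hk, h'.add g k hg hk]
    ring
  · simp only [h.smul a g hg, h'.smul a g hg]
    ring
  · calc |J g - J' g| ≤ |J g| + |J' g| := abs_sub _ _
      _ ≤ C * B + C' * B := add_le_add (hC g B hg hB) (hC' g B hg hB)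
      _ = _ := by ring

theorem Bl.zero (hJ : Bl J) : J (fun _ => 0) = 0 := by
  have := hJ.smul 0 (fun _ => 0) (Bc.const 0)
  simpa using this

theorem Bl.sum (hJ : Bl J) {κ : Type} (S : Finset κ) {g : κ → ℝ → ℝ} (h : ∀ k ∈ S, Bc (g k)) :
    J (fun t => ∑ k ∈ S, g k t) = ∑ k ∈ S, J (g k) := by
  classical
  induction S using Finset.induction_on with
  | empty => simpa using hJ.zero
  | insert a S ha ih =>
    simp only [sum_insert ha]
    rw [hJ.add _ _ (h a (mem_insert_self _ _)) (Bc.sum S fun k hk => h k (mem_insert_of_mem hk)),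
      ih fun k hk => h k (mem_insert_of_mem hk)]

theorem Bl.csub (hJ : Bl J) {g h : ℝ → ℝ} (hg : Bc g) (hh : Bc h) :
    J (fun t => g t - h t) = J g - J h := by
  have h1 := hJ.add _ _ hg (hh.const_mul (-1))
  rw [hJ.smul _ _ hh] at h1
  have e : (fun t => g t - h t) = fun t => g t + -1 * h t := by
    funext t
    ring
  rw [e, h1]
  ring

/-- a functional which vanishes at all cosines vanishes -/
theorem Bl.vanish (hJ : Bl J) (h : ∀ n : ℤ, J (fun t => Real.cos (n * t)) = 0) {f : ℝ → ℝ}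
    (hf : Continuous f) : J (fun t => f (Real.cos t)) = 0 := by
  have h1 : ∀ (k : ℕ) (n : ℤ), J (fun t => Real.cos t ^ k * Real.cos (n * t)) = 0 := by
    intro k
    induction k with
    | zero => intro n; simpa using h n
    | succ k ih =>
      intro n
      have e : (fun t => Real.cos t ^ (k + 1) * Real.cos (n * t)) = fun t =>
          (1 / 2) * (Real.cos t ^ k * Real.cos (((n + 1 : ℤ) : ℝ) * t)) +
          (1 / 2) * (Real.cos t ^ k * Real.cos (((n - 1 : ℤ) : ℝ) * t)) := by
        funext t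
        push_cast
        rw [add_mul, sub_mul, one_mul, Real.cos_add, Real.cos_sub]
        ring
      have hb : ∀ m : ℤ, Bc fun t => Real.cos t ^ k * Real.cos (m * t) :=
        fun m => (Bc.cos1.pow k).mul (Bc.cos m)
      rw [e, hJ.add _ _ ((hb _).const_mul _) ((hb _).const_mul _), hJ.smul _ _ (hb _),
        hJ.smul _ _ (hb _), ih, ih]
      ring
  have h2 : ∀ k : ℕ, J (fun t => Real.cos t ^ k) = 0 := by
    intro k
    have := h1 k 0
    simpa using this
  have h3 : ∀ p : Polynomial ℝ, J (fun t => p.eval (Real.cos t)) = 0 := by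
    intro p
    simp only [Polynomial.eval_eq_sum_range]
    have hb : ∀ i ∈ range (p.natDegree + 1), Bc fun t => p.coeff i * Real.cos t ^ i :=
      fun i _ => (Bc.cos1.pow i).const_mul _
    rw [hJ.sum _ hb]
    refine sum_eq_zero fun i _ => ?_
    rw [hJ.smul _ _ (Bc.cos1.pow i), h2, mul_zero]
  obtain ⟨C, hC0, hC⟩ := hJ.le
  refine eq_of_forall_dist_le fun ε hε => ?_
  obtain ⟨p, hp⟩ := exists_polynomial_near_of_continuousOn (-1) 1 f hf.continuousOn (ε / (C + 1))
    (by positivity)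
  have hbf := Bc.comp_cos hf
  have hbp : Bc fun t => p.eval (Real.cos t) := Bc.comp_cos p.continuous
  have hd : ∀ t, |p.eval (Real.cos t) - f (Real.cos t)| ≤ ε / (C + 1) := fun t =>
    (hp _ ⟨Real.neg_one_le_cos t, Real.cos_le_one t⟩).le
  have h4 := hC _ _ (hbp.sub hbf) hd
  rw [hJ.csub hbp hbf, h3 p, zero_sub, abs_neg] at h4
  rw [Real.dist_eq, sub_zero]
  refine h4.trans ?_
  rw [mul_div_assoc', div_le_iff₀ (by positivity)]
  nlinarith

/-- the characters of `SU(2)` -/
noncomputable def u (a : ℕ) (t : ℝ) : ℝ := ∑ j ∈ range (a + 1), Real.cos (((a : ℝ) - 2 * j) * t)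

theorem bc_u (a : ℕ) : Bc (u a) := by
  unfold u
  refine Bc.sum _ fun j _ => ?_
  have := Bc.cos ((a : ℤ) - 2 * j)
  push_cast at this
  exact this

/-- functions of the cosine -/
def Fc (g : ℝ → ℝ) : Prop := ∃ f : ℝ → ℝ, Continuous f ∧ g = fun t => f (Real.cos t)

theorem Fc.bc {g : ℝ → ℝ} (h : Fc g) : Bc g := by
  obtain ⟨f, hf, rfl⟩ := h
  exact Bc.comp_cos hf

theorem Fc.mul {g h : ℝ → ℝ} (hg : Fc g) (hh : Fc h) : Fc fun t => g t * h t := by
  obtain ⟨f, hf, rfl⟩ := hg
  obtain ⟨k, hk, rfl⟩ := hh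
  exact ⟨fun x => f x * k x, hf.mul hk, rfl⟩

theorem Fc.pow {g : ℝ → ℝ} (hg : Fc g) (k : ℕ) : Fc fun t => g t ^ k := by
  obtain ⟨f, hf, rfl⟩ := hg
  exact ⟨fun x => f x ^ k, hf.pow k, rfl⟩

theorem fc_u (a : ℕ) : Fc (u a) := by
  refine ⟨fun x => ∑ j ∈ range (a + 1), (Polynomial.Chebyshev.T ℝ ((a : ℤ) - 2 * j)).eval x, ?_, ?_⟩
  · exact continuous_finsetSum _ fun j _ => (Polynomial.Chebyshev.T ℝ _).continuous
  · funext t
    unfold u
    refine sum_congr rfl fun j _ => ?_
    rw [Polynomial.Chebyshev.T_real_cos]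
    push_cast
    rfl

theorem u_zero (t : ℝ) : u 0 t = 1 := by
  unfold u
  simp

theorem u_one (t : ℝ) : u 1 t = 2 * Real.cos t := by
  unfold u
  rw [sum_range_succ, sum_range_one]
  norm_num
  ring

theorem u_step (n : ℕ) (t : ℝ) : u (n + 2) t = u n t + 2 * Real.cos ((n + 2) * t) := by
  unfold u
  rw [sum_range_succ, sum_range_succ']
  have h1 : ∀ j ∈ range (n + 1), Real.cos ((((n + 2 : ℕ) : ℝ) - 2 * ((j + 1 : ℕ) : ℝ)) * t) =
      Real.cos (((n : ℝ) - 2 * j) * t) := by
    intro j _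
    congr 1
    push_cast
    ring
  rw [sum_congr rfl h1]
  have h2 : Real.cos ((((n + 2 : ℕ) : ℝ) - 2 * ((n + 2 : ℕ) : ℝ)) * t) =
      Real.cos (((n : ℝ) + 2) * t) := by
    rw [← Real.cos_neg]
    congr 1
    push_cast
    ring
  have h3 : Real.cos ((((n + 2 : ℕ) : ℝ) - 2 * ((0 : ℕ) : ℝ)) * t) =
      Real.cos (((n : ℝ) + 2) * t) := by
    congr 1
    push_cast
    ring
  rw [h2, h3]
  ring

/-- a functional which vanishes at all characters vanishes -/
theorem Bl.vanish_u (hJ : Bl J) (h : ∀ n : ℕ, J (u n) = 0) {g : ℝ → ℝ} (hg : Fc g) : J g = 0 := by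
  obtain ⟨f, hf, rfl⟩ := hg
  refine hJ.vanish (fun n => ?_) hf
  have key : ∀ n : ℕ, J (fun t => Real.cos (n * t)) = 0 := by
    intro n
    rcases n with _ | _ | n
    · have h0 := h 0
      have e : u 0 = fun _ : ℝ => (1 : ℝ) := funext u_zero
      rw [e] at h0
      simpa using h0
    · have h1 := h 1
      have e : u 1 = fun t => 2 * Real.cos t := funext u_one
      rw [e, hJ.smul _ _ Bc.cos1] at h1
      have h2 : J (fun t => Real.cos t) = 0 := by linarith
      simpa using h2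
    · have h1 := h (n + 2)
      have hb : Bc fun t => Real.cos ((n + 2) * t) := by
        have := Bc.cos ((n : ℤ) + 2)
        push_cast at this
        exact this
      have e : u (n + 2) = fun t => u n t + 2 * Real.cos ((n + 2) * t) := funext (u_step n)
      rw [e, hJ.add _ _ (bc_u n) (hb.const_mul 2), hJ.smul _ _ hb, h n, zero_add] at h1
      have h2 : J (fun t => Real.cos ((n + 2) * t)) = 0 := by linarith
      have e2 : (fun t : ℝ => Real.cos (((n + 1 + 1 : ℕ) : ℝ) * t)) =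
          fun t => Real.cos ((n + 2) * t) := by
        funext t
        congr 1
        push_cast
        ring
      rw [e2]
      exact h2
  obtain ⟨k, rfl | rfl⟩ := Int.eq_nat_or_neg n
  · simpa using key k
  · have e : (fun t : ℝ => Real.cos (((-(k : ℤ) : ℤ) : ℝ) * t)) = fun t => Real.cos ((k : ℝ) * t) := by
      funext t
      push_cast
      rw [neg_mul, Real.cos_neg]
    rw [e]
    exact key _

/-- uniqueness -/
theorem Bl.unique (hJ : Bl J) (hJ' : Bl J') (h : ∀ n : ℕ, J (u n) = J' (u n)) {g : ℝ → ℝ}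
    (hg : Fc g) : J g = J' g := by
  have := (hJ.sub hJ').vanish_u (fun n => by rw [h, sub_self]) hg
  linarith

end Pool.Agent.Q284.JM
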