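import Pool.Agent.Q284.JM.St

/-! Means of products of functions of several angles. -/

set_option autoImplicit false
set_option linter.unusedSectionVars false

namespace Pool.Agent.Q284.JM

open Finset Filter Topology Pool.Agent.Q284.IM Pool.Agent.TH553.RS

/-- normalised bounded linear functionals on bounded functions -/
structure Lf {P : Type} (L : (P → ℝ) → ℝ) : Prop where
  add : ∀ g h, Bd g → Bd h → L (fun t => g t + h t) = L g + L h
  smul : ∀ (c : ℝ) g, Bd g → L (fun t => c * g t) = c * L g
  le : ∀ g B, Bd g → (∀ t, |g t| ≤ B) → |L g| ≤ B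
  one : L (fun _ => 1) = 1

section

variable {P : Type} {ι : Type} [Fintype ι] [DecidableEq ι] (θ : ι → P → ℝ)

/-- the products of the characters -/
noncomputable def X (a : ι → ℕ) (v : P) : ℝ := ∏ i, u (a i) (θ i v)

/-- the support -/
def sp (a : ι → ℕ) : Finset ι := univ.filter fun i => a i ≠ 0

theorem mem_sp {a : ι → ℕ} {i : ι} : i ∈ sp a ↔ a i ≠ 0 := by
  unfold sp
  simp

theorem X_eq {a : ι → ℕ} {T : Finset ι} (h : sp a ⊆ T) (v : P) :
    X θ a v = ∏ i ∈ T, u (a i) (θ i v) := by
  unfold X
  symm
  refine prod_subset (subset_univ T) fun i _ hi => ?_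
  have h1 : a i = 0 := by
    by_contra h2
    exact hi (h (mem_sp.2 h2))
  rw [h1, u_zero]

theorem bd_of {g : ℝ → ℝ} (hg : Bc g) (i : ι) : Bd fun v => g (θ i v) := by
  obtain ⟨-, B, hB⟩ := hg
  exact ⟨B, fun v => hB _⟩

theorem bd_prod {T : Finset ι} {g : ι → ℝ → ℝ} (hg : ∀ i ∈ T, Bc (g i)) :
    Bd fun v => ∏ i ∈ T, g i (θ i v) := by
  induction T using Finset.induction_on with
  | empty => simpa using Bd.const (P := P) 1
  | insert a T ha ih =>
    simp only [prod_insert ha]
    exact (bd_of θ (hg a (mem_insert_self _ _)) a).mul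
      (ih fun k hk => hg k (mem_insert_of_mem hk))

theorem bd_X (a : ι → ℕ) : Bd (X θ a) := bd_prod θ fun i _ => bc_u (a i)

variable {L : (P → ℝ) → ℝ} (hL : Lf L)

include hL

/-- the functional of one angle -/
theorem bl_one (i : ι) {R : P → ℝ} (hR : Bd R) : Bl fun g => L fun v => g (θ i v) * R v := by
  obtain ⟨C, hC⟩ := hR
  refine ⟨fun g k hg hk => ?_, fun c g hg => ?_, |C|, abs_nonneg _, fun g B hg hB => ?_⟩
  · rw [← hL.add _ _ ((bd_of θ hg i).mul ⟨C, hC⟩) ((bd_of θ hk i).mul ⟨C, hC⟩)]
    congr 1
    funext v
    ring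
  · rw [← hL.smul _ _ ((bd_of θ hg i).mul ⟨C, hC⟩)]
    congr 1
    funext v
    ring
  · refine hL.le _ _ ((bd_of θ hg i).mul ⟨C, hC⟩) fun v => ?_
    rw [abs_mul, mul_comm]
    exact mul_le_mul ((hC v).trans (le_abs_self C)) (hB _) (abs_nonneg _) (abs_nonneg _)

/-- **The joint law from the characters.** -/
theorem joint_of {T : Finset ι} (h : ∀ a : ι → ℕ, a ≠ 0 → sp a ⊆ T → L (X θ a) = 0)
    {g : ι → ℝ → ℝ} (hg : ∀ i ∈ T, Fc (g i)) :
    L (fun v => ∏ i ∈ T, g i (θ i v)) = ∏ i ∈ T, st (g i) := by
  have key : ∀ R : Finset ι, R ⊆ T → ∀ g : ι → ℝ → ℝ, (∀ i ∈ R, Fc (g i)) →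
      (∀ i ∈ T, i ∉ R → ∃ b, g i = u b) →
      L (fun v => ∏ i ∈ T, g i (θ i v)) = ∏ i ∈ T, st (g i) := by
    intro R
    induction R using Finset.induction_on with
    | empty =>
      intro _ g _ hu
      have h1 : ∀ i, ∃ b, i ∈ T → g i = u b := fun i => by
        by_cases hi : i ∈ T
        · obtain ⟨b, hb⟩ := hu i hi (notMem_empty i)
          exact ⟨b, fun _ => hb⟩
        · exact ⟨0, fun h => absurd h hi⟩
      choose b hb using h1
      set a : ι → ℕ := fun i => if i ∈ T then b i else 0 with ha
      have hsp : sp a ⊆ T := by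
        intro i hi
        rw [mem_sp, ha] at hi
        by_contra h2
        simp only [if_neg h2] at hi
        exact hi rfl
      have h2 : (fun v => ∏ i ∈ T, g i (θ i v)) = X θ a := by
        funext v
        rw [X_eq θ hsp]
        refine prod_congr rfl fun i hi => ?_
        rw [hb i hi, ha]
        simp only [if_pos hi]
      have h3 : ∏ i ∈ T, st (g i) = ∏ i ∈ T, if a i = 0 then (1 : ℝ) else 0 := by
        refine prod_congr rfl fun i hi => ?_
        rw [hb i hi, st_u, ha]
        simp only [if_pos hi]
      rw [h2, h3]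
      by_cases h0 : a = 0
      · rw [h0]
        have h4 : X θ (0 : ι → ℕ) = fun _ => 1 := by
          funext v
          unfold X
          simp [u_zero]
        rw [h4, hL.one]
        simp
      · rw [h a h0 hsp]
        obtain ⟨i, hi⟩ := Function.ne_iff.1 h0
        have hiT : i ∈ T := hsp (mem_sp.2 hi)
        symm
        exact prod_eq_zero hiT (if_neg hi)
    | insert i R hiR ih =>
      intro hRT g hgF hu
      have hiT : i ∈ T := hRT (mem_insert_self i R)
      have hTe : ∀ k ∈ T.erase i, Bc (g k) := by
        intro k hk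
        rw [mem_erase] at hk
        by_cases hkR : k ∈ R
        · exact (hgF k (mem_insert_of_mem hkR)).bc
        · obtain ⟨b, hb⟩ := hu k hk.2 (by
            rw [mem_insert, not_or]
            exact ⟨hk.1, hkR⟩)
          rw [hb]
          exact bc_u b
      have hJ1 := bl_one θ hL i (bd_prod θ hTe)
      have hJ2 := st_bl.const_mul (∏ k ∈ T.erase i, st (g k))
      have hup : ∀ (h : ℝ → ℝ) (v : P), (∏ k ∈ T, (Function.update g i h) k (θ k v)) =
          h (θ i v) * ∏ k ∈ T.erase i, g k (θ k v) := by
        intro h v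
        rw [← mul_prod_erase T _ hiT, Function.update_self]
        congr 1
        refine prod_congr rfl fun k hk => ?_
        rw [Function.update_of_ne (mem_erase.1 hk).1]
      have hup2 : ∀ h : ℝ → ℝ, (∏ k ∈ T, st ((Function.update g i h) k)) =
          st h * ∏ k ∈ T.erase i, st (g k) := by
        intro h
        rw [← mul_prod_erase T _ hiT, Function.update_self]
        congr 1
        refine prod_congr rfl fun k hk => ?_
        rw [Function.update_of_ne (mem_erase.1 hk).1]
      have h5 := hJ1.unique hJ2 (fun n => by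
        have h6 := ih ((subset_insert i R).trans hRT) (Function.update g i (u n)) (fun k hk => by
          have hki : k ≠ i := fun h => hiR (h ▸ hk)
          rw [Function.update_of_ne hki]
          exact hgF k (mem_insert_of_mem hk)) (fun k hk hkR => by
          by_cases hki : k = i
          · subst hki
            exact ⟨n, Function.update_self ..⟩
          · rw [Function.update_of_ne hki]
            exact hu k hk (by
              rw [mem_insert, not_or]
              exact ⟨hki, hkR⟩))
        rw [hup2] at h6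
        simp_rw [hup] at h6
        exact h6) (hgF i (mem_insert_self i R))
      have h7 := hup (g i)
      have h8 := hup2 (g i)
      rw [Function.update_eq_self] at h7 h8
      rw [h8]
      simp_rw [h7]
      exact h5
  exact key T (Subset.refl T) g hg fun i hi hi' => absurd hi hi'

end

end Pool.Agent.Q284.JM
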