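import Pool.Agent.Q284.JM.Rig

/-! The L-functions of tensor products of symmetric powers. -/

set_option autoImplicit false
set_option linter.unusedSectionVars false

namespace Pool.Agent.Q284.JM

open Filter Topology Complex NumberField IsDedekindDomain Pool.Agent.W540.BE Pool.Agent.TH553.RS
  Pool.Agent.TH553.ST Pool.Agent.H341R2 Pool.Agent.Q284.IM

section

variable {K : Type} [Field K] [NumberField K] {ι : Type} [Fintype ι] [DecidableEq ι]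
  (θ : ι → HeightOneSpectrum (𝓞 K) → ℝ)

/-- the eigenvalues -/
noncomputable def eg (a : ι → ℕ) (v : HeightOneSpectrum (𝓞 K)) (j : ∀ i, Fin (a i + 1)) : ℂ :=
  cexp ((∑ i, ((a i : ℝ) - 2 * (j i : ℕ)) * θ i v : ℝ) * I)

/-- the L-functions -/
noncomputable def TL (a : ι → ℕ) (s : ℂ) : ℂ :=
  ∏' v, (∏ j : (∀ i, Fin (a i + 1)), (1 - eg θ a v j * ((nm K v : ℕ) : ℂ) ^ (-s)))⁻¹

theorem norm_eg (a : ι → ℕ) (v : HeightOneSpectrum (𝓞 K)) (j : ∀ i, Fin (a i + 1)) :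
    ‖eg θ a v j‖ = 1 := by
  unfold eg
  exact Complex.norm_exp_ofReal_mul_I _

theorem eg_eq (a : ι → ℕ) (v : HeightOneSpectrum (𝓞 K)) (j : ∀ i, Fin (a i + 1)) :
    eg θ a v j = ∏ i, al (θ i) (a i) v (j i) := by
  unfold eg al
  rw [← Complex.exp_sum, Complex.ofReal_sum, Finset.sum_mul]

theorem sum_al (n : ℕ) (φ : HeightOneSpectrum (𝓞 K) → ℝ) (v : HeightOneSpectrum (𝓞 K)) :
    ∑ j, al φ n v j = ((u n (φ v) : ℝ) : ℂ) := by
  refine Complex.ext ?_ ?_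
  · rw [re_al, Complex.ofReal_re]
    rfl
  · rw [im_al, Complex.ofReal_im]

theorem sum_eg (a : ι → ℕ) (v : HeightOneSpectrum (𝓞 K)) :
    ∑ j, eg θ a v j = ((X θ a v : ℝ) : ℂ) := by
  unfold X
  rw [Complex.ofReal_prod]
  simp_rw [← sum_al, eg_eq]
  have := Finset.prod_univ_sum (fun i : ι => (Finset.univ : Finset (Fin (a i + 1))))
    (fun i j => al (θ i) (a i) v j)
  rw [Fintype.piFinset_univ] at this
  exact this.symm

/-- the number of the eigenvalues -/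
noncomputable def nb (a : ι → ℕ) : ℕ := Fintype.card (∀ i, Fin (a i + 1))

/-- the eigenvalues, numbered -/
noncomputable def ae (a : ι → ℕ) (v : HeightOneSpectrum (𝓞 K)) (k : Fin (nb a)) : ℂ :=
  eg θ a v ((Fintype.equivFin (∀ i, Fin (a i + 1))).symm k)

theorem norm_ae (a : ι → ℕ) (v : HeightOneSpectrum (𝓞 K)) (k : Fin (nb a)) : ‖ae θ a v k‖ = 1 :=
  norm_eg θ a v _

theorem sum_ae (a : ι → ℕ) (v : HeightOneSpectrum (𝓞 K)) :
    ∑ k, ae θ a v k = ((X θ a v : ℝ) : ℂ) := by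
  rw [← sum_eg]
  exact Equiv.sum_comp (Fintype.equivFin (∀ i, Fin (a i + 1))).symm (eg θ a v)

theorem prod_ae (a : ι → ℕ) (v : HeightOneSpectrum (𝓞 K)) (z : ℂ) :
    ∏ k, (1 - ae θ a v k * z) = ∏ j : (∀ i, Fin (a i + 1)), (1 - eg θ a v j * z) :=
  Equiv.prod_comp (Fintype.equivFin (∀ i, Fin (a i + 1))).symm (fun j => 1 - eg θ a v j * z)

theorem TL_eq (a : ι → ℕ) (s : ℂ) :
    TL θ a s = ∏' v, (∏ k, (1 - ae θ a v k * ((nm K v : ℕ) : ℂ) ^ (-s)))⁻¹ := by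
  unfold TL
  exact tprod_congr fun v => by rw [prod_ae]

theorem size_TL (a : ι → ℕ) (τ : ℝ) : (∀ᶠ ε : ℝ in 𝓝[>] 0, TL θ a (1 + τ * I + ε) ≠ 0) ∧
    Tendsto (fun ε : ℝ => qt (nm K) (fun v =>
      (((X θ a v : ℝ) : ℂ) * ((nm K v : ℕ) : ℂ) ^ (-(τ * I : ℂ))).re) ε -
      Real.log ‖TL θ a (1 + τ * I + ε)‖ / Real.log (1 / ε)) (𝓝[>] 0) (𝓝 0) := by
  set B : HeightOneSpectrum (𝓞 K) → Polynomial ℂ := fun v =>
    ∏ k, (1 - Polynomial.C (ae θ a v k) * Polynomial.X) with hB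
  have hBe : ∀ v z, (B v).eval z = ∏ k, (1 - ae θ a v k * z) := by
    intro v z
    rw [hB]
    simp [Polynomial.eval_prod]
  obtain ⟨C, hC⟩ := bd_X θ a
  exact size_unit (sysF K) (ae θ a) (Filter.Eventually.of_forall (norm_ae θ a))
    (t := fun v => ((X θ a v : ℝ) : ℂ)) (C := C)
    (fun v => by rw [Complex.norm_real]; exact hC v)
    (Filter.Eventually.of_forall fun v => sum_ae θ a v) τ B (Filter.Eventually.of_forall hBe)
    (fun v => by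
      rw [hBe, Finset.prod_ne_zero_iff]
      intro j _ h4
      have h5 : ‖ae θ a v j * ((nm K v : ℕ) : ℂ) ^ (-(1 + τ * I : ℂ))‖ = 1 := by
        have : ae θ a v j * ((nm K v : ℕ) : ℂ) ^ (-(1 + τ * I : ℂ)) = 1 := by
          linear_combination -h4
        rw [this, norm_one]
      rw [norm_mul, norm_ae, one_mul] at h5
      have h6 := cpow_le_half normSys v (s := 1 + τ * I) (by simp)
      linarith) (TL θ a)
    (fun s _ => by
      rw [TL_eq]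
      refine tprod_congr fun v => ?_
      rw [hBe])

/-- a continuation -/
def Ct (a : ι → ℕ) (τ : ℝ) (Λ : ℂ → ℂ) : Prop :=
  MeromorphicAt Λ (1 + τ * I) ∧ ∀ᶠ s in 𝓝 ((1 : ℂ) + τ * I), (1 : ℝ) < s.re → Λ s = TL θ a s

/-- the mean values and the orders -/
theorem order_TL {a : ι → ℕ} {τ : ℝ} {Λ : ℂ → ℂ} (hΛ : Ct θ a τ Λ) :
    ∃ m : ℤ, meromorphicOrderAt Λ (1 + τ * I) = m ∧
      ∀ U : Ultrafilter ℝ, (U : Filter ℝ) ≤ 𝓝[>] 0 → M (nm K) U (fun v =>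
        X θ a v * (((nm K v : ℕ) : ℂ) ^ (-(τ * I : ℂ))).re) = -(m : ℝ) := by
  obtain ⟨m, hm1, hm2⟩ := order_unit (size_TL θ a τ).1 hΛ.1 hΛ.2
  refine ⟨m, hm1, fun U hU => ?_⟩
  refine M_of_tendsto hU ?_
  have h3 := (size_TL θ a τ).2.add hm2
  rw [zero_add] at h3
  refine h3.congr fun ε => ?_
  simp only [Complex.re_ofReal_mul]
  ring

/-- **The orders of the poles.** -/
theorem exists_m {Q : (ι → ℕ) → Prop} (hc : ∀ a, Q a → ∃ Λ, Ct θ a 0 Λ) :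
    ∃ m : (ι → ℕ) → ℤ,
      (∀ a, Q a → ∀ Λ, Ct θ a 0 Λ →
        meromorphicOrderAt Λ (1 + (0 : ℝ) * I) = ((-m a : ℤ) : WithTop ℤ)) ∧
      ∀ U : Ultrafilter ℝ, (U : Filter ℝ) ≤ 𝓝[>] 0 → ∀ a, Q a → M (nm K) U (X θ a) = m a := by
  have hval : ∀ a Λ, Ct θ a 0 Λ → ∃ m : ℤ, meromorphicOrderAt Λ (1 + (0 : ℝ) * I) = m ∧
      ∀ U : Ultrafilter ℝ, (U : Filter ℝ) ≤ 𝓝[>] 0 → M (nm K) U (X θ a) = -m := by
    intro a Λ hΛ
    obtain ⟨m, hm1, hm2⟩ := order_TL θ hΛ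
    refine ⟨m, hm1, fun U hU => ?_⟩
    rw [← hm2 U hU]
    congr 1
    funext v
    simp
  have h1 : ∀ a, ∃ m : ℤ, Q a → (∀ Λ, Ct θ a 0 Λ →
      meromorphicOrderAt Λ (1 + (0 : ℝ) * I) = ((-m : ℤ) : WithTop ℤ)) ∧
      ∀ U : Ultrafilter ℝ, (U : Filter ℝ) ≤ 𝓝[>] 0 → M (nm K) U (X θ a) = m := by
    intro a
    by_cases ha : Q a
    · obtain ⟨Λ, hΛ⟩ := hc a ha
      obtain ⟨m, hm1, hm2⟩ := hval a Λ hΛ
      refine ⟨-m, fun _ => ⟨fun Λ' hΛ' => ?_, fun U hU => ?_⟩⟩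
      · obtain ⟨m', hm1', hm2'⟩ := hval a Λ' hΛ'
        have h2 := hm2 (Ultrafilter.of (𝓝[>] 0)) (Ultrafilter.of_le _)
        rw [hm2' (Ultrafilter.of (𝓝[>] 0)) (Ultrafilter.of_le _)] at h2
        have h3 : m' = m := by
          have : (m' : ℝ) = m := by linarith
          exact_mod_cast this
        rw [hm1', h3, neg_neg]
      · rw [hm2 U hU]
        push_cast
        rfl
    · exact ⟨0, fun h => absurd h ha⟩
  choose m hm using h1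
  exact ⟨m, fun a ha => (hm a ha).1, fun U hU a ha => (hm a ha).2 U hU⟩

/-- the second moment -/
theorem M_sq_X {U : Ultrafilter ℝ} (hU : (U : Filter ℝ) ≤ 𝓝[>] 0)
    (h : ∀ a : ι → ℕ, a ≠ 0 → M (nm K) U (X θ a) = 0) (a : ι → ℕ) :
    (M (nm K) U fun v => X θ a v ^ 2) = 1 := by
  have h1 := joint_of θ (lf_M (sysF K) hU) (T := Finset.univ) (fun b hb _ => h b hb)
    (g := fun i t => u (a i) t ^ 2) fun i _ => (fc_u _).pow 2
  simp only [st_sq, Finset.prod_const_one] at h1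
  rw [← h1]
  congr 1
  funext v
  unfold X
  rw [Finset.prod_pow]

/-- **No zeros and poles on the line.** -/
theorem order_line {a : ι → ℕ} (h : ∀ U : Ultrafilter ℝ, (U : Filter ℝ) ≤ 𝓝[>] 0 →
      ∀ a : ι → ℕ, a ≠ 0 → M (nm K) U (X θ a) = 0) {τ : ℝ} (hτ : τ ≠ 0) {Λ : ℂ → ℂ}
    (hΛ : Ct θ a τ Λ) : meromorphicOrderAt Λ (1 + τ * I) = ((0 : ℤ) : WithTop ℤ) := by
  obtain ⟨m, hm1, hm2⟩ := order_TL θ hΛ
  rw [hm1]
  set U₀ : Ultrafilter ℝ := Ultrafilter.of (𝓝[>] 0) with hU₀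
  have h₀ : (U₀ : Filter ℝ) ≤ 𝓝[>] 0 := Ultrafilter.of_le _
  have h1 := hm2 U₀ h₀
  have hb2 : Bd fun v : HeightOneSpectrum (𝓞 K) => (((nm K v : ℕ) : ℂ) ^ (-(τ * I : ℂ))).re :=
    ⟨1, fun v => (Complex.abs_re_le_norm _).trans (norm_cpow_I (nm_pos v) _).le⟩
  have h3 := M_cs (sysF K) h₀ (bd_X θ a) hb2
  rw [h1, M_sq_X θ h₀ (h U₀ h₀), M_sq_tw h₀ hτ] at h3
  have h4 : (m : ℝ) ^ 2 < 1 := by nlinarith
  have h5 : |(m : ℝ)| < 1 := by
    rw [← sq_abs] at h4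
    exact (sq_lt_one_iff₀ (abs_nonneg _)).1 h4
  have h6 : m = 0 := Int.abs_lt_one_iff.1 (by exact_mod_cast h5)
  rw [h6]

/-- natural averages from continuations -/
theorem avg_zero {a : ι → ℕ} (hc : ∀ τ : ℝ, ∃ Λ, Ct θ a τ Λ ∧
      meromorphicOrderAt Λ (1 + τ * I) = ((0 : ℤ) : WithTop ℤ)) :
    Tendsto (mn (X θ a)) atTop (𝓝 0) := by
  have h1 : Tendsto (mn fun v => ∑ k, ae θ a v k) atTop (𝓝 0) := by
    refine taub (norm_ae θ a) (L := TL θ a) (fun s _ => TL_eq θ a s) fun τ => ?_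
    obtain ⟨Λ, hΛ, h7⟩ := hc τ
    obtain ⟨g, h10, h11, h12⟩ := (meromorphicOrderAt_eq_int_iff hΛ.1).1 h7
    refine ⟨g, h10, h11, ?_⟩
    rw [eventually_nhdsWithin_iff] at h12
    filter_upwards [h12, hΛ.2] with s h13 h14 h15
    have hne : s ≠ 1 + τ * I := by
      intro h
      rw [h] at h15
      simp at h15
    have h16 := h13 hne
    rw [zpow_zero, one_smul] at h16
    rw [← h16, h14 h15]
  have h3 := (Complex.continuous_re.tendsto _).comp h1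
  refine h3.congr fun N => ?_
  simp only [Function.comp]
  rw [re_mn]
  congr 1
  funext v
  rw [sum_ae, Complex.ofReal_re]

end

end Pool.Agent.Q284.JM
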