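import Pool.Agent.Q284.JM.Mult

/-! Rigidity: integral mean values of products of characters. -/

set_option autoImplicit false
set_option linter.unusedSectionVars false

namespace Pool.Agent.Q284.JM

open Finset Filter Topology Pool.Agent.Q284.IM Pool.Agent.TH553.RS

section

variable {P : Type} {N : P → ℕ} (hN : Sys N) {U : Ultrafilter ℝ} (hU : (U : Filter ℝ) ≤ 𝓝[>] 0)

include hN hU

theorem lf_M : Lf (M N U) where
  add g h hg hh := M_add hN hU hg hh
  smul c g hg := M_const_mul hN hU hg c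
  le g B hg hB := by
    rw [abs_le]
    constructor
    · rw [← M_const hN hU (-B)]
      exact M_mono hN hU (Bd.const _) hg fun v => (abs_le.1 (hB _)).1
    · rw [← M_const hN hU B]
      exact M_mono hN hU hg (Bd.const _) fun v => (abs_le.1 (hB _)).2
  one := M_one hN hU

/-- products with a function of length zero -/
theorem M_mul_zero {D W : P → ℝ} (hD : Bd D) (hW : Bd W) (h : (M N U fun v => D v ^ 2) = 0) :
    (M N U fun v => D v * W v) = 0 := by
  have h1 := M_cs hN hU hD hW
  rw [h, zero_mul] at h1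
  exact pow_eq_zero_iff two_ne_zero |>.1 (le_antisymm h1 (sq_nonneg _))

/-- the case of equality -/
theorem cs_eq {Y Z : P → ℝ} (hY : Bd Y) (hZ : Bd Z) (h1 : (M N U fun v => Y v ^ 2) = 1)
    (h2 : (M N U fun v => Z v ^ 2) = 1) {m : ℤ} (h3 : (M N U fun v => Y v * Z v) = m)
    (hm : m ≠ 0) : (m : ℝ) ^ 2 = 1 ∧ (M N U fun v => (Y v - m * Z v) ^ 2) = 0 := by
  have h4 := M_cs hN hU hY hZ
  rw [h1, h2, h3, one_mul] at h4
  have h5 : m ^ 2 ≤ 1 := by exact_mod_cast h4
  have h6 : 1 ≤ m ^ 2 := by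
    have : 0 < m ^ 2 := by positivity
    omega
  have h7 : m ^ 2 = 1 := le_antisymm h5 h6
  have h8 : (m : ℝ) ^ 2 = 1 := by exact_mod_cast h7
  refine ⟨h8, ?_⟩
  have e : (fun v => (Y v - m * Z v) ^ 2) = fun v => Y v ^ 2 +
      ((-2 * m) * (Y v * Z v) + (m : ℝ) ^ 2 * Z v ^ 2) := by
    funext v
    ring
  rw [e, M_add hN hU hY.sq (((hY.mul hZ).const_mul _).add (hZ.sq.const_mul _)),
    M_add hN hU ((hY.mul hZ).const_mul _) (hZ.sq.const_mul _), M_const_mul hN hU (hY.mul hZ),
    M_const_mul hN hU hZ.sq, h1, h2, h3, h8]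
  linear_combination (-2 : ℝ) * h8

theorem bd_pow {Y : P → ℝ} (hY : Bd Y) (k : ℕ) : Bd fun v => Y v ^ k := by
  obtain ⟨B, hB⟩ := hY
  refine ⟨B ^ k, fun v => ?_⟩
  rw [abs_pow]
  exact pow_le_pow_left₀ (abs_nonneg _) (hB v) k

/-- equal even powers -/
theorem sq_eq {Y Z W : P → ℝ} (hY : Bd Y) (hZ : Bd Z) (hW : Bd W) {m : ℤ} (hm : (m : ℝ) ^ 2 = 1)
    (h : (M N U fun v => (Y v - m * Z v) ^ 2) = 0) :
    (M N U fun v => Y v ^ 2 * W v) = M N U fun v => Z v ^ 2 * W v := by
  have hY2 := hY.sq.mul hW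
  have hZ2 := hZ.sq.mul hW
  have h1 : (M N U fun v => (Y v - m * Z v) * ((Y v + m * Z v) * W v)) = 0 :=
    M_mul_zero hN hU (hY.sub (hZ.const_mul _)) ((hY.add (hZ.const_mul _)).mul hW) h
  have e : (fun v => (Y v - m * Z v) * ((Y v + m * Z v) * W v)) = fun v =>
      Y v ^ 2 * W v - Z v ^ 2 * W v := by
    funext v
    linear_combination (-(Z v ^ 2 * W v)) * hm
  rw [e, M_sub hN hU hY2 hZ2] at h1
  linarith

theorem four_eq {Y Z : P → ℝ} (hY : Bd Y) (hZ : Bd Z) {m : ℤ} (hm : (m : ℝ) ^ 2 = 1)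
    (h : (M N U fun v => (Y v - m * Z v) ^ 2) = 0) :
    (M N U fun v => Y v ^ 4) = M N U fun v => Z v ^ 4 := by
  have h1 := sq_eq hN hU hY hZ hY.sq hm h
  have h2 := sq_eq hN hU hY hZ hZ.sq hm h
  have e1 : (fun v => Y v ^ 4) = fun v => Y v ^ 2 * Y v ^ 2 := by
    funext v
    ring
  have e2 : (fun v => Z v ^ 4) = fun v => Z v ^ 2 * Z v ^ 2 := by
    funext v
    ring
  have e3 : (fun v => Z v ^ 2 * Y v ^ 2) = fun v => Y v ^ 2 * Z v ^ 2 := by
    funext v
    ring
  rw [e1, e2, h1, e3, h2]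

variable {ι : Type} [Fintype ι] [DecidableEq ι] {θ : ι → P → ℝ}
  (hst : ∀ i g, Fc g → (M N U fun v => g (θ i v)) = st g)
  (hint : ∀ a : ι → ℕ, 2 ≤ (sp a).card → ∃ m : ℤ, M N U (X θ a) = m)

include hst

/-- **Rigidity for one product.** -/
theorem rigid {a : ι → ℕ} {i : ι} (hi : a i ≠ 0)
    (hind : ∀ b : ι → ℕ, b ≠ 0 → sp b ⊆ (sp a).erase i → M N U (X θ b) = 0) {m : ℤ}
    (hm : M N U (X θ a) = m) (hm0 : m ≠ 0) :
    (m : ℝ) ^ 2 = 1 ∧ (M N U fun v => (u (a i) (θ i v) - m * ∏ j ∈ (sp a).erase i,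
      u (a j) (θ j v)) ^ 2) = 0 ∧ (a i : ℕ) + 1 = ∏ j ∈ (sp a).erase i, (a j + 1) := by
  have hL := lf_M hN hU
  set T := (sp a).erase i with hT
  set Y : P → ℝ := fun v => u (a i) (θ i v) with hYdef
  set Z : P → ℝ := fun v => ∏ j ∈ T, u (a j) (θ j v) with hZdef
  have hY : Bd Y := bd_of θ (bc_u (a i)) i
  have hZ : Bd Z := bd_prod θ fun j _ => bc_u (a j)
  have hX : X θ a = fun v => Y v * Z v := by
    funext v
    rw [X_eq θ (Subset.refl (sp a)), ← mul_prod_erase _ _ (mem_sp.2 hi)]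
  have h1 : (M N U fun v => Y v ^ 2) = 1 := by
    have := hst i (fun t => u (a i) t ^ 2) ((fc_u _).pow 2)
    rw [st_sq] at this
    exact this
  have h1' : (M N U fun v => Y v ^ 4) = a i + 1 := by
    have := hst i (fun t => u (a i) t ^ 4) ((fc_u _).pow 4)
    rw [st_four] at this
    exact this
  have h2 : (M N U fun v => Z v ^ 2) = 1 := by
    have h3 := joint_of θ hL hind (g := fun j t => u (a j) t ^ 2) fun j _ => (fc_u _).pow 2
    simp only [st_sq, prod_const_one] at h3
    rw [← h3]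
    congr 1
    funext v
    rw [hZdef, ← prod_pow]
  have h2' : (M N U fun v => Z v ^ 4) = ∏ j ∈ T, ((a j : ℝ) + 1) := by
    have h3 := joint_of θ hL hind (g := fun j t => u (a j) t ^ 4) fun j _ => (fc_u _).pow 4
    simp only [st_four] at h3
    rw [← h3]
    congr 1
    funext v
    rw [hZdef, ← prod_pow]
  rw [hX] at hm
  obtain ⟨h3, h4⟩ := cs_eq hN hU hY hZ h1 h2 hm hm0
  refine ⟨h3, h4, ?_⟩
  have h5 := four_eq hN hU hY hZ h3 h4
  rw [h1', h2'] at h5
  exact_mod_cast h5

/-- one angle -/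
theorem single_zero {a : ι → ℕ} {i : ι} (h : sp a = {i}) : M N U (X θ a) = 0 := by
  have hai : a i ≠ 0 := mem_sp.1 (by rw [h]; exact mem_singleton_self i)
  have e : X θ a = fun v => u (a i) (θ i v) := by
    funext v
    rw [X_eq θ (Subset.refl (sp a)), h, prod_singleton]
  rw [e, hst i _ (fc_u _), st_u, if_neg hai]

/-- the exponent of a pair -/
def px (i j : ι) (a b : ℕ) : ι → ℕ := Pi.single i a + Pi.single j b

omit hN hU hst in
theorem sp_px {i j : ι} (hij : i ≠ j) {a b : ℕ} (ha : a ≠ 0) (hb : b ≠ 0) :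
    sp (px i j a b) = {i, j} := by
  ext k
  rw [mem_sp, mem_insert, mem_singleton]
  unfold px
  rw [Pi.add_apply]
  by_cases h : k = i
  · subst h
    simp [ha]
  · by_cases h' : k = j
    · subst h'
      simp [hb]
    · simp [h, h']

omit hN hU hst in
theorem X_px {i j : ι} (hij : i ≠ j) (a b : ℕ) (v : P) :
    X θ (px i j a b) v = u a (θ i v) * u b (θ j v) := by
  have h1 : sp (px i j a b) ⊆ {i, j} := by
    intro k hk
    rw [mem_sp] at hk
    rw [mem_insert, mem_singleton]
    by_contra hcon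
    push Not at hcon
    refine hk ?_
    unfold px
    rw [Pi.add_apply, Pi.single_eq_of_ne hcon.1, Pi.single_eq_of_ne hcon.2, add_zero]
  rw [X_eq θ h1, prod_pair hij]
  unfold px
  simp [hij, hij.symm]

include hint in
/-- **Pairs.** -/
theorem pair_eq {i j : ι} (hij : i ≠ j) {a b : ℕ} (ha : a ≠ 0) (hb : b ≠ 0) {m : ℤ}
    (hm : (M N U fun v => u a (θ i v) * u b (θ j v)) = m) (hm0 : m ≠ 0) :
    a = b ∧ (m : ℝ) ^ 2 = 1 ∧ (M N U fun v => (u a (θ i v) - m * u b (θ j v)) ^ 2) = 0 := by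
  have hX : X θ (px i j a b) = fun v => u a (θ i v) * u b (θ j v) := funext (X_px hij a b)
  have hsp := sp_px hij ha hb
  have hai : px i j a b i = a := by
    unfold px
    simp [hij]
  have haj : px i j a b j = b := by
    unfold px
    simp [hij.symm]
  have her : (sp (px i j a b)).erase i = {j} := by
    rw [hsp]
    ext k
    simp only [mem_erase, mem_insert, mem_singleton]
    constructor
    · rintro ⟨h1, h2⟩
      exact h2.resolve_left h1
    · rintro rfl
      exact ⟨hij.symm, Or.inr rfl⟩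
  have h1 := rigid hN hU hst (a := px i j a b) (i := i) (by rw [hai]; exact ha)
    (fun c hc hcs => by
      rw [her] at hcs
      have hc1 : sp c = {j} := by
        refine (subset_singleton_iff.1 hcs).resolve_left fun h => hc ?_
        funext k
        by_contra h2
        have : k ∈ sp c := mem_sp.2 h2
        rw [h] at this
        exact absurd this (notMem_empty k)
      exact single_zero hN hU hst hc1) (m := m) (by rw [hX]; exact hm) hm0
  rw [her, prod_singleton, hai, haj] at h1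
  simp only [prod_singleton, haj] at h1
  exact ⟨by omega, h1.1, h1.2.1⟩

include hint in
/-- the value for the adjoint representations -/
theorem two_two {i j : ι} (hij : i ≠ j) {m : ℤ}
    (hm : (M N U fun v => u 2 (θ i v) * u 2 (θ j v)) = m) : m = 0 ∨
    (m = 1 ∧ (M N U fun v => (u 2 (θ i v) - u 2 (θ j v)) ^ 2) = 0) := by
  by_cases hm0 : m = 0
  · exact Or.inl hm0
  · right
    obtain ⟨-, h1, h2⟩ := pair_eq hN hU hst hint hij two_ne_zero two_ne_zero hm hm0
    have hY : Bd fun v => u 2 (θ i v) := bd_of θ (bc_u 2) i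
    have hZ : Bd fun v => u 2 (θ j v) := bd_of θ (bc_u 2) j
    have hc : ∀ k, (M N U fun v => u 2 (θ k v) * u 2 (θ k v) ^ 2) = 1 := fun k => by
      have := hst k (fun t => u 2 t * u 2 t ^ 2) ((fc_u 2).mul ((fc_u 2).pow 2))
      rw [st_two (by omega)] at this
      exact this
    -- the third moments
    have h3 : (M N U fun v => (u 2 (θ i v) - m * u 2 (θ j v)) * (u 2 (θ i v)) ^ 2) = 0 :=
      M_mul_zero hN hU (hY.sub (hZ.const_mul _)) hY.sq h2
    have h4 := sq_eq hN hU hY hZ hZ h1 h2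
    have e1 : (fun v => (u 2 (θ i v) - m * u 2 (θ j v)) * (u 2 (θ i v)) ^ 2) = fun v =>
        u 2 (θ i v) * u 2 (θ i v) ^ 2 - m * (u 2 (θ i v) ^ 2 * u 2 (θ j v)) := by
      funext v
      ring
    have e2 : (fun v => u 2 (θ j v) ^ 2 * u 2 (θ j v)) = fun v =>
        u 2 (θ j v) * u 2 (θ j v) ^ 2 := by
      funext v
      ring
    rw [e1, M_sub hN hU (hY.mul hY.sq) ((hY.sq.mul hZ).const_mul _),
      M_const_mul hN hU (hY.sq.mul hZ), hc i, h4, e2, hc j, mul_one] at h3
    have h5 : (m : ℝ) = 1 := by linarith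
    have h6 : m = 1 := by exact_mod_cast h5
    refine ⟨h6, ?_⟩
    rw [h5] at h2
    simpa only [one_mul] using h2

include hint in
/-- **Equal exponents are excluded.** -/
theorem pair_zero {i j : ι} (hij : i ≠ j) (h0 : (M N U fun v => u 2 (θ i v) * u 2 (θ j v)) = 0)
    {a b : ℕ} (ha : a ≠ 0) (hb : b ≠ 0) : (M N U fun v => u a (θ i v) * u b (θ j v)) = 0 := by
  have hI : ∀ {a b : ℕ}, a ≠ 0 → b ≠ 0 → ∃ m : ℤ,
      (M N U fun v => u a (θ i v) * u b (θ j v)) = m := by
    intro a b ha hb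
    obtain ⟨m, hm⟩ := hint (px i j a b) (by rw [sp_px hij ha hb, card_pair hij])
    have hX : X θ (px i j a b) = fun v => u a (θ i v) * u b (θ j v) := funext (X_px hij a b)
    rw [hX] at hm
    exact ⟨m, hm⟩
  obtain ⟨m, hm⟩ := hI ha hb
  by_cases hm0 : m = 0
  · rw [hm, hm0, Int.cast_zero]
  · exfalso
    obtain ⟨rfl, h1, h2⟩ := pair_eq hN hU hst hint hij ha hb hm hm0
    have hY : Bd fun v => u a (θ i v) := bd_of θ (bc_u a) i
    have hZ : Bd fun v => u a (θ j v) := bd_of θ (bc_u a) j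
    have hW : Bd fun v => u 2 (θ i v) := bd_of θ (bc_u 2) i
    have h3 := sq_eq hN hU hY hZ hW h1 h2
    have h4 : (M N U fun v => u a (θ i v) ^ 2 * u 2 (θ i v)) = 1 := by
      have := hst i (fun t => u 2 t * u a t ^ 2) ((fc_u 2).mul ((fc_u a).pow 2))
      rw [st_two (by omega)] at this
      rw [← this]
      congr 1
      funext v
      ring
    have h5 : (M N U fun v => u a (θ j v) ^ 2 * u 2 (θ i v)) = 0 := by
      have hbl := bl_one θ (lf_M hN hU) j hW
      refine hbl.vanish_u (g := fun t => u a t ^ 2) (fun n => ?_) ((fc_u a).pow 2)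
      have e : (fun v => u n (θ j v) * u 2 (θ i v)) = fun v => u 2 (θ i v) * u n (θ j v) := by
        funext v
        ring
      rw [e]
      rcases Nat.eq_zero_or_pos n with rfl | hn
      · simp only [u_zero, mul_one]
        rw [hst i _ (fc_u 2), st_u, if_neg two_ne_zero]
      · by_cases hn2 : n = 2
        · rw [hn2]
          exact h0
        · obtain ⟨k, hk⟩ := hI (a := 2) (b := n) two_ne_zero hn.ne'
          by_cases hk0 : k = 0
          · rw [hk, hk0, Int.cast_zero]
          · exact absurd (pair_eq hN hU hst hint hij two_ne_zero hn.ne' hk hk0).1.symm hn2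
    rw [h4, h5] at h3
    exact one_ne_zero h3

include hint in
/-- **All products.** -/
theorem all_zero (h0 : ∀ i j, i ≠ j → (M N U fun v => u 2 (θ i v) * u 2 (θ j v)) = 0) :
    ∀ a : ι → ℕ, a ≠ 0 → M N U (X θ a) = 0 := by
  have key : ∀ k : ℕ, ∀ a : ι → ℕ, a ≠ 0 → (sp a).card = k → M N U (X θ a) = 0 := by
    intro k
    induction k using Nat.strong_induction_on with
    | _ k ih =>
      intro a ha hk
      have hne : (sp a).Nonempty := by
        obtain ⟨i, hi⟩ := Function.ne_iff.1 ha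
        exact ⟨i, mem_sp.2 hi⟩
      rcases Nat.lt_or_ge k 2 with hk2 | hk2
      · have hk1 : (sp a).card = 1 := by
          have := card_pos.2 hne
          omega
        obtain ⟨i, hi⟩ := card_eq_one.1 hk1
        exact single_zero hN hU hst hi
      · obtain ⟨m, hm⟩ := hint a (by omega)
        by_contra hcon
        have hm0 : m ≠ 0 := by
          rintro rfl
          rw [Int.cast_zero] at hm
          exact hcon hm
        have hind : ∀ i ∈ sp a, ∀ b : ι → ℕ, b ≠ 0 → sp b ⊆ (sp a).erase i →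
            M N U (X θ b) = 0 := by
          intro i hi b hb hbs
          refine ih (sp b).card ?_ b hb rfl
          have := card_le_card hbs
          rw [card_erase_of_mem hi] at this
          omega
        have hprod : ∀ i ∈ sp a, (a i + 1) ^ 2 = ∏ j ∈ sp a, (a j + 1) := by
          intro i hi
          have h1 := (rigid hN hU hst (mem_sp.1 hi) (hind i hi) hm hm0).2.2
          rw [← mul_prod_erase _ _ hi, ← h1]
          ring
        obtain ⟨i, hi⟩ := hne
        have hall : ∀ j ∈ sp a, a j + 1 = a i + 1 := by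
          intro j hj
          have h1 := (hprod j hj).trans (hprod i hi).symm
          exact (Nat.pow_left_injective (n := 2) (by norm_num)) h1
        have h2 : (a i + 1) ^ 2 = (a i + 1) ^ k := by
          rw [hprod i hi, prod_congr rfl hall, prod_const, hk]
        have hai : a i ≠ 0 := mem_sp.1 hi
        have hk3 : k = 2 := (Nat.pow_right_injective (by omega : 2 ≤ a i + 1) h2).symm
        obtain ⟨p, q, hpq, hpqs⟩ := card_eq_two.1 (hk.trans hk3)
        have hap : a p ≠ 0 := mem_sp.1 (by rw [hpqs]; simp)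
        have haq : a q ≠ 0 := mem_sp.1 (by rw [hpqs]; simp)
        refine hcon ?_
        have e : X θ a = fun v => u (a p) (θ p v) * u (a q) (θ q v) := by
          funext v
          rw [X_eq θ (Subset.refl (sp a)), hpqs, prod_pair hpq]
        rw [e]
        exact pair_zero hN hU hst hint hpq (h0 p q hpq) hap haq
  exact fun a ha => key _ a ha rfl

end

end Pool.Agent.Q284.JM
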