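import Pool.Agent.Q284.JM.Bl

/-! Moments of the law of Sato and Tate. -/

set_option autoImplicit false

namespace Pool.Agent.Q284.JM

open Finset Pool.Agent.Q284.IM

/-- the law of Sato and Tate -/
noncomputable def st (g : ℝ → ℝ) : ℝ := 2 / Real.pi * ∫ t in (0 : ℝ)..Real.pi, g t * Real.sin t ^ 2

theorem st_JC : st = JC 2 (-1) := by
  funext g
  unfold st JC
  have e : (fun t : ℝ => g t * (1 + ((-1 : ℤ) : ℝ) * Real.cos ((2 : ℕ) * t))) =
      fun t => 2 * (g t * Real.sin t ^ 2) := by
    funext t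
    push_cast
    rw [Real.sin_sq_eq_half_sub]
    ring
  rw [e, intervalIntegral.integral_const_mul]
  ring

theorem st_mean : Mean st := by
  rw [st_JC]
  exact JC_mean (by omega) (by simp)

theorem st_bl : Bl st := Bl.of_mean st_mean

theorem u_sin (a : ℕ) (t : ℝ) : Real.sin t * u a t = Real.sin ((a + 1) * t) := mul_sin a t

theorem int_sin_sin {m n : ℕ} (hm : 1 ≤ m) : ∫ t in (0 : ℝ)..Real.pi,
    Real.sin (m * t) * Real.sin (n * t) = if m = n then Real.pi / 2 else 0 := by
  have e : (fun t : ℝ => Real.sin (m * t) * Real.sin (n * t)) = fun t =>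
      1 / 2 * Real.cos (((m - n : ℤ) : ℝ) * t) - 1 / 2 * Real.cos (((m + n : ℤ) : ℝ) * t) := by
    funext t
    push_cast
    rw [sub_mul, add_mul, Real.cos_sub, Real.cos_add]
    ring
  have hc : ∀ k : ℤ, Continuous fun t : ℝ => 1 / 2 * Real.cos ((k : ℝ) * t) := fun k => by fun_prop
  rw [e, intervalIntegral.integral_sub ((hc _).intervalIntegrable _ _)
    ((hc _).intervalIntegrable _ _), intervalIntegral.integral_const_mul,
    intervalIntegral.integral_const_mul, int_cos, int_cos, if_neg (by omega : ¬ ((m : ℤ) + n = 0))]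
  by_cases h : m = n
  · subst h
    rw [if_pos (by ring), if_pos rfl]
    ring
  · rw [if_neg (by omega), if_neg h]
    ring

/-- sums of products of sines -/
theorem int_sum {S T : Finset ℕ} (f g : ℕ → ℕ) (hf : ∀ j ∈ S, 1 ≤ f j) :
    2 / Real.pi * ∫ t in (0 : ℝ)..Real.pi, (∑ j ∈ S, Real.sin (f j * t)) *
      (∑ k ∈ T, Real.sin (g k * t)) = ∑ j ∈ S, ∑ k ∈ T, if f j = g k then 1 else 0 := by
  have hpi := Real.pi_pos
  have hc : ∀ j k, IntervalIntegrable (fun t : ℝ => Real.sin (f j * t) * Real.sin (g k * t))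
      MeasureTheory.volume 0 Real.pi := fun j k =>
    (by fun_prop : Continuous fun t : ℝ => Real.sin (f j * t) * Real.sin (g k * t)).intervalIntegrable
      _ _
  simp_rw [sum_mul_sum]
  rw [intervalIntegral.integral_finsetSum fun j _ => ?_, mul_sum]
  · refine sum_congr rfl fun j hj => ?_
    rw [intervalIntegral.integral_finsetSum fun k _ => hc j k, mul_sum]
    refine sum_congr rfl fun k _ => ?_
    rw [int_sin_sin (hf j hj)]
    split_ifs
    · field_simp
    · ring
  · refine Continuous.intervalIntegrable ?_ _ _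
    exact continuous_finsetSum _ fun k _ => by fun_prop

theorem st_mul (a b : ℕ) : st (fun t => u a t * u b t) = if a = b then 1 else 0 := by
  have h := int_sum (S := {0}) (T := {0}) (fun _ => a + 1) (fun _ => b + 1) (by simp)
  simp only [sum_singleton] at h
  unfold st
  have e : (fun t : ℝ => u a t * u b t * Real.sin t ^ 2) = fun t =>
      Real.sin (((a + 1 : ℕ) : ℝ) * t) * Real.sin (((b + 1 : ℕ) : ℝ) * t) := by
    funext t
    push_cast
    rw [← u_sin, ← u_sin]
    ring
  rw [e, h]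
  simp only [add_left_inj]

theorem st_u (a : ℕ) : st (u a) = if a = 0 then 1 else 0 := by
  have h := st_mul a 0
  have e : (fun t => u a t * u 0 t) = u a := by
    funext t
    rw [u_zero, mul_one]
  rwa [e] at h

theorem st_sq (a : ℕ) : st (fun t => u a t ^ 2) = 1 := by
  have h := st_mul a a
  rw [if_pos rfl] at h
  rw [← h]
  congr 1
  funext t
  ring

theorem sq_sin (a : ℕ) (t : ℝ) : u a t ^ 2 * Real.sin t =
    ∑ j ∈ range (a + 1), Real.sin (((2 * j + 1 : ℕ) : ℝ) * t) := by
  have h1 : u a t ^ 2 * Real.sin t = ∑ j ∈ range (a + 1),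
      (1 / 2 * Real.sin (((2 * (a - j) + 1 : ℕ) : ℝ) * t) +
        1 / 2 * Real.sin (((2 * j + 1 : ℕ) : ℝ) * t)) := by
    have h2 : u a t ^ 2 * Real.sin t = Real.sin ((a + 1) * t) * u a t := by
      rw [← u_sin]
      ring
    rw [h2]
    unfold u
    rw [mul_sum]
    refine sum_congr rfl fun j hj => ?_
    rw [mem_range] at hj
    have e1 : (((2 * (a - j) + 1 : ℕ) : ℝ) * t) = (a + 1) * t + ((a : ℝ) - 2 * j) * t := by
      have : ((a - j : ℕ) : ℝ) = a - j := by
        rw [Nat.cast_sub (by omega)]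
      push_cast
      rw [this]
      ring
    have e2 : (((2 * j + 1 : ℕ) : ℝ) * t) = (a + 1) * t - ((a : ℝ) - 2 * j) * t := by
      push_cast
      ring
    rw [e1, e2, Real.sin_add, Real.sin_sub]
    ring
  rw [h1, sum_add_distrib, ← mul_sum, ← mul_sum]
  have h3 : ∑ j ∈ range (a + 1), Real.sin (((2 * (a - j) + 1 : ℕ) : ℝ) * t) =
      ∑ j ∈ range (a + 1), Real.sin (((2 * j + 1 : ℕ) : ℝ) * t) := by
    have := sum_range_reflect (fun j : ℕ => Real.sin (((2 * j + 1 : ℕ) : ℝ) * t)) (a + 1)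
    simpa using this
  rw [h3]
  ring

theorem st_four (a : ℕ) : st (fun t => u a t ^ 4) = a + 1 := by
  have h := int_sum (S := range (a + 1)) (T := range (a + 1)) (fun j => 2 * j + 1)
    (fun j => 2 * j + 1) (by simp)
  unfold st
  have e : (fun t : ℝ => u a t ^ 4 * Real.sin t ^ 2) = fun t =>
      (∑ j ∈ range (a + 1), Real.sin (((2 * j + 1 : ℕ) : ℝ) * t)) *
      ∑ j ∈ range (a + 1), Real.sin (((2 * j + 1 : ℕ) : ℝ) * t) := by
    funext t
    rw [← sq_sin]
    ring
  rw [e, h]
  have h2 : ∀ j ∈ range (a + 1), (∑ k ∈ range (a + 1), if 2 * j + 1 = 2 * k + 1 then (1 : ℝ) else 0) =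
      1 := by
    intro j hj
    rw [sum_eq_single j]
    · simp
    · intro k _ hk
      rw [if_neg (by omega)]
    · exact fun h => absurd hj h
  rw [sum_congr rfl h2]
  simp

theorem st_two {a : ℕ} (ha : 1 ≤ a) : st (fun t => u 2 t * u a t ^ 2) = 1 := by
  have h := int_sum (S := {0}) (T := range (a + 1)) (fun _ => 3)
    (fun j => 2 * j + 1) (by simp)
  rw [sum_singleton] at h
  simp only [sum_singleton] at h
  unfold st
  have e : (fun t : ℝ => u 2 t * u a t ^ 2 * Real.sin t ^ 2) = fun t =>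
      Real.sin (((3 : ℕ) : ℝ) * t) *
      ∑ j ∈ range (a + 1), Real.sin (((2 * j + 1 : ℕ) : ℝ) * t) := by
    funext t
    rw [← sq_sin]
    have := u_sin 2 t
    push_cast at this ⊢
    rw [show (3 : ℝ) * t = (2 + 1) * t by ring, ← this]
    ring
  rw [e, h, sum_eq_single 1]
  · simp
  · intro k _ hk
    rw [if_neg (by omega)]
  · intro h
    exact absurd (mem_range.2 (by omega)) h

end Pool.Agent.Q284.JM
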